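import Pool.Agent.Helper2.NNQ.Stm

/-!
# COVER from CORE
-/

set_option autoImplicit false

open Finset
open scoped Real

namespace Pool.Agent.Helper47.NNQ

open Pool.Agent.Helper2.NNQ

theorem Reg.sub {g : ℝ → ℝ} {σ A B A' B' : ℝ} (h : Reg g σ A B) (hA : A ≤ A') (hB : B' ≤ B) :
    Reg g σ A' B' :=
  ⟨h.pos, fun x y h1 h2 h3 => h.lo x y (hA.trans h1) h2 (h3.trans hB),
    fun x y h1 h2 h3 => h.hi x y (hA.trans h1) h2 (h3.trans hB)⟩

theorem t_COVER (h : S_CORE) : S_COVER := by
  classical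
  obtain ⟨C, hC, hcore⟩ := h
  refine ⟨2 * C, by positivity, ?_⟩
  intro k g σ a b hreg hab hL
  have hσ := hreg.pos
  have hba : 0 < b - a := sub_pos.2 hab
  have hσba : 0 < σ * (b - a) := mul_pos hσ hba
  obtain ⟨m, hm⟩ : ∃ m : ℝ, m = min 1 (σ * (b - a)) := ⟨_, rfl⟩
  rw [← hm] at hL ⊢
  have hm0 : 0 < m := by rw [hm]; exact lt_min one_pos hσba
  obtain ⟨K, hK⟩ : ∃ K : ℕ, K = ⌈σ * (b - a)⌉₊ := ⟨_, rfl⟩
  have hK1 : 1 ≤ K := by rw [hK]; exact Nat.one_le_iff_ne_zero.2 (Nat.ceil_pos.2 hσba).ne'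
  have hKpos : (0 : ℝ) < K := by exact_mod_cast hK1
  have hKge : σ * (b - a) ≤ K := by rw [hK]; exact Nat.le_ceil _
  obtain ⟨h', hh'⟩ : ∃ h' : ℝ, h' = (b - a) / K := ⟨_, rfl⟩
  have hh'0 : 0 < h' := by rw [hh']; positivity
  have hKh : K * h' = b - a := by rw [hh']; field_simp
  have hσh1 : σ * h' ≤ 1 := by
    rw [hh', mul_div_assoc', div_le_one hKpos]
    exact hKge
  have hσh2 : m / 2 ≤ σ * h' := by
    rcases le_or_gt (σ * (b - a)) 1 with h1 | h1
    · have hK1' : K = 1 := by
        refine le_antisymm ?_ hK1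
        rw [hK]
        exact Nat.ceil_le.2 (by exact_mod_cast h1)
      rw [hh', hK1', Nat.cast_one, div_one]
      have : m ≤ σ * (b - a) := by rw [hm]; exact min_le_right _ _
      linarith
    · have hm1 : m ≤ 1 := by rw [hm]; exact min_le_left _ _
      have hK2 : (K : ℝ) < σ * (b - a) + 1 := by rw [hK]; exact Nat.ceil_lt_add_one hσba.le
      have h2 : 1 / 2 ≤ σ * h' := by
        rw [hh', mul_div_assoc', le_div_iff₀ hKpos]
        linarith
      linarith
  -- the partition
  obtain ⟨A, hA⟩ : ∃ A : ℕ → ℝ, A = fun j : ℕ => a + j * h' := ⟨_, rfl⟩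
  have hAs : ∀ j, A (j + 1) = A j + h' := fun j => by
    rw [hA]
    push_cast
    ring
  have hAa : ∀ j, a ≤ A j := fun j => by
    rw [hA]
    have : 0 ≤ (j : ℝ) * h' := by positivity
    simp only
    linarith
  have hAb : ∀ j, j ≤ K → A j ≤ b := fun j hj => by
    rw [hA]
    have h1 : (j : ℝ) * h' ≤ K * h' := by
      have : (j : ℝ) ≤ K := by exact_mod_cast hj
      gcongr
    simp only
    linarith
  have hAinj : ∀ i j, A i = A j → i = j := fun i j hij => by
    rw [hA] at hij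
    simp only at hij
    have h1 : (i : ℝ) * h' = j * h' := by linarith
    have h2 := mul_right_cancel₀ hh'0.ne' h1
    exact_mod_cast h2
  obtain ⟨L, hLd⟩ : ∃ L : ℝ, L = m * Real.exp (g a) := ⟨_, rfl⟩
  rw [← hLd] at hL ⊢
  have hlogL : 0 < Real.log L := Real.log_pos (by linarith)
  have hpart : ∀ j, j < K → ∃ T : Finset ℝ,
      (∀ t ∈ T, A j ≤ t ∧ t + 1 / (σ * Real.exp (g (A j))) ≤ A (j + 1)) ∧
      PP g k ∩ Set.Icc (A j) (A (j + 1)) ⊆ ⋃ t ∈ T, Set.Icc t (t + 1 / (σ * Real.exp (g (A j)))) ∧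
      (T.card : ℝ) * (1 / (σ * Real.exp (g (A j)))) ≤ 2 * C * h' / Real.log L := by
    intro j hj
    have hreg' : Reg g σ (A j) (A (j + 1)) := Reg.sub hreg (hAa j) (hAb _ hj)
    have hlen : A (j + 1) - A j = h' := by rw [hAs]; ring
    have hga : g a ≤ g (A j) := by
      have h1 := hreg.lo a (A j) le_rfl (hAa j) (hAb j hj.le)
      have h2 : 0 ≤ σ * (A j - a) := mul_nonneg hσ.le (sub_nonneg.2 (hAa j))
      linarith
    have hexp : Real.exp (g a) ≤ Real.exp (g (A j)) := Real.exp_le_exp.2 hga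
    obtain ⟨D, hD⟩ : ∃ D : ℝ, D = σ * h' * Real.exp (g (A j)) := ⟨_, rfl⟩
    have hDL : L / 2 ≤ D := by
      rw [hD, hLd]
      calc m * Real.exp (g a) / 2 = (m / 2) * Real.exp (g a) := by ring
        _ ≤ (σ * h') * Real.exp (g (A j)) :=
          mul_le_mul hσh2 hexp (Real.exp_pos _).le (by positivity)
    have hD2 : 2 ≤ D := by linarith
    obtain ⟨T, hT1, hT2, hT3⟩ := hcore k g σ (A j) (A (j + 1)) hreg' (by rw [hAs]; linarith)
      (by rw [hlen]; exact hσh1) (by rw [hlen, ← hD]; exact hD2)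
    rw [hlen, ← hD] at hT1
    refine ⟨T, hT2, hT3, ?_⟩
    have hlogD : Real.log L / 2 ≤ Real.log D := by
      have h1 : Real.log L / 2 = Real.log (Real.sqrt L) := by
        rw [Real.log_sqrt (by linarith)]
      rw [h1]
      refine Real.log_le_log (Real.sqrt_pos.2 (by linarith)) (le_trans ?_ hDL)
      rw [Real.sqrt_le_left (by linarith)]
      nlinarith
    have hlogD0 : 0 < Real.log D := by linarith
    have hδ : 1 / (σ * Real.exp (g (A j))) = h' / D := by
      rw [hD]
      have := Real.exp_pos (g (A j))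
      field_simp
    rw [hδ]
    have hDpos : 0 < D := by linarith
    calc (T.card : ℝ) * (h' / D) ≤ (C * D / Real.log D) * (h' / D) := by
          gcongr
      _ = C * h' / Real.log D := by
          field_simp
      _ ≤ C * h' / (Real.log L / 2) := by
          gcongr
      _ = 2 * C * h' / Real.log L := by
          field_simp
  choose! T hT1 hT2 hT3 using hpart
  refine ⟨(range K).biUnion fun j => (T j).image fun t => (t, A j), ?_, ?_, ?_⟩
  · intro p hp
    obtain ⟨j, hj, hp⟩ := Finset.mem_biUnion.1 hp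
    obtain ⟨t, ht, rfl⟩ := Finset.mem_image.1 hp
    have hj' := Finset.mem_range.1 hj
    obtain ⟨h1, h2⟩ := hT1 j hj' t ht
    exact ⟨hAa j, h1, h2.trans (hAb _ hj')⟩
  · rintro x ⟨hx1, hx2⟩
    -- the index
    have hq0 : 0 ≤ (x - a) / h' := div_nonneg (sub_nonneg.2 hx2.1) hh'0.le
    obtain ⟨j, hjK, hj1, hj2⟩ : ∃ j, j < K ∧ A j ≤ x ∧ x ≤ A (j + 1) := by
      rcases Nat.lt_or_ge ⌊(x - a) / h'⌋₊ K with hlt | hge
      · refine ⟨⌊(x - a) / h'⌋₊, hlt, ?_, ?_⟩
        · have h1 := Nat.floor_le hq0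
          rw [le_div_iff₀ hh'0] at h1
          rw [hA]
          simp only
          linarith
        · have h1 := Nat.lt_floor_add_one ((x - a) / h')
          rw [div_lt_iff₀ hh'0] at h1
          rw [hA]
          push_cast
          linarith
      · refine ⟨K - 1, by omega, ?_, ?_⟩
        · have h1 : ((K - 1 : ℕ) : ℝ) ≤ (x - a) / h' := by
            refine le_trans ?_ (Nat.floor_le hq0)
            exact_mod_cast (Nat.sub_le K 1).trans hge
          rw [le_div_iff₀ hh'0] at h1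
          rw [hA]
          simp only
          linarith
        · have h1 : K - 1 + 1 = K := by omega
          rw [h1, hA]
          simp only
          have := hx2.2
          linarith
    have h1 := hT2 j hjK ⟨hx1, hj1, hj2⟩
    rw [Set.mem_iUnion₂] at h1 ⊢
    obtain ⟨t, ht, hxt⟩ := h1
    exact ⟨(t, A j), Finset.mem_biUnion.2 ⟨j, Finset.mem_range.2 hjK,
      Finset.mem_image.2 ⟨t, ht, rfl⟩⟩, hxt⟩
  · rw [Finset.sum_biUnion]
    · calc ∑ j ∈ range K, ∑ p ∈ (T j).image fun t => (t, A j), 1 / (σ * Real.exp (g p.2))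
          ≤ ∑ j ∈ range K, 2 * C * h' / Real.log L := by
            refine Finset.sum_le_sum fun j hj => ?_
            rw [Finset.sum_image (by intro s _ t _ hst; exact congrArg Prod.fst hst)]
            simp only [Finset.sum_const, nsmul_eq_mul]
            exact hT3 j (Finset.mem_range.1 hj)
        _ = 2 * C * (b - a) / Real.log L := by
            rw [Finset.sum_const, Finset.card_range, nsmul_eq_mul, ← hKh]
            ring
    · intro i _ j _ hij
      rw [Function.onFun, Finset.disjoint_left]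
      intro p hp hp'
      obtain ⟨s, _, rfl⟩ := Finset.mem_image.1 hp
      obtain ⟨t, _, ht⟩ := Finset.mem_image.1 hp'
      exact hij (hAinj i j (congrArg Prod.snd ht).symm)

end Pool.Agent.Helper47.NNQ
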